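import Pool.Agent.Y924.UF.Stm
import Pool.Agent.Y638.EL.Rec
import Pool.Agent.Y154.EL.Evaln

/-!
# UF-HALT: an undecidable predicate with elementary records; the codes of formulas are injective
(helper988)
-/

set_option autoImplicit false

namespace Pool.Agent.Y988.UF

open Pool.Agent.Y924.EL Pool.Agent.Y924.UF
open Nat.Partrec (Code)

/-- a program whose domain is the halting problem -/
theorem exists_c0 : ∃ c0 : Code, ∀ n : ℕ, Code.eval c0 n =
    Code.eval (Denumerable.ofNat Code n) 0 := by
  have h1 : Partrec fun n : ℕ => Code.eval (Denumerable.ofNat Code n) 0 :=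
    Code.eval_part.comp (Computable.ofNat Code) (Computable.const 0)
  obtain ⟨c, hc⟩ := Code.exists_code.1 (Partrec.nat_iff.1 h1)
  exact ⟨c, fun n => congrFun hc n⟩

theorem t_HALT : S_HALT := by
  obtain ⟨c0, hc0⟩ := exists_c0
  have hf : E3 (fun w => if evn c0 w = 0 then 0 else 1) :=
    Pool.Agent.Y154.EL.e_ite (Pool.Agent.Y154.EL.t_EVALN c0) (Pool.Agent.Y154.EL.e_const 0)
      (Pool.Agent.Y154.EL.e_const 1)
  obtain ⟨cc, k, hk⟩ := Pool.Agent.Y638.EL.t_REC _ hf
  refine ⟨fun n => (Code.eval c0 n).Dom, fun w => if evn c0 w = 0 then 0 else 1, cc, k, ?_, hk,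
    fun n => ?_⟩
  · intro hP
    apply ComputablePred.halting_problem 0
    have h2 : ComputablePred fun c : Code => (Code.eval c0 (Encodable.encode c)).Dom := by
      obtain ⟨g, hg, h3⟩ := ComputablePred.computable_iff.1 hP
      refine ComputablePred.computable_iff.2 ⟨fun c => g (Encodable.encode c),
        hg.comp Computable.encode, ?_⟩
      funext c
      exact congrFun h3 (Encodable.encode c)
    have h4 : (fun c : Code => (Code.eval c0 (Encodable.encode c)).Dom) =
        fun c : Code => (Code.eval c 0).Dom := by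
      funext c
      rw [hc0, Denumerable.ofNat_encode]
    rwa [h4] at h2
  · refine (Part.dom_iff_mem (o := Code.eval c0 n)).trans ?_
    constructor
    · rintro ⟨y, hy⟩
      obtain ⟨i, hi⟩ := Code.evaln_complete.1 hy
      refine ⟨i, ?_⟩
      have h5 : Code.evaln i c0 n = some y := hi
      have h6 : evn c0 (Nat.pair i n) = y + 1 := by
        unfold evn
        rw [Nat.unpair_pair]
        simp only [h5]
      simp [h6]
    · rintro ⟨i, hi⟩
      cases h5 : Code.evaln i c0 n with
      | none =>
        have h6 : evn c0 (Nat.pair i n) = 0 := by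
          unfold evn
          rw [Nat.unpair_pair]
          simp only [h5]
        simp [h6] at hi
      | some y => exact ⟨y, Code.evaln_complete.2 ⟨i, h5⟩⟩

theorem t_CINJ : ∀ (φ ψ : Pool.Agent.Y924.EL.Fm), φ.code = ψ.code → φ = ψ := by
  intro φ
  induction φ with
  | eq i j =>
    intro ψ h
    cases ψ <;> simp [Fm.code, Nat.pair_eq_pair] at h
    · obtain ⟨rfl, rfl⟩ := h
      rfl
  | one i =>
    intro ψ h
    cases ψ <;> simp [Fm.code, Nat.pair_eq_pair] at h
    · subst h
      rfl
  | add i j k =>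
    intro ψ h
    cases ψ <;> simp [Fm.code, Nat.pair_eq_pair] at h
    · obtain ⟨rfl, rfl, rfl⟩ := h
      rfl
  | mul i j k =>
    intro ψ h
    cases ψ <;> simp [Fm.code, Nat.pair_eq_pair] at h
    · obtain ⟨rfl, rfl, rfl⟩ := h
      rfl
  | val i =>
    intro ψ h
    cases ψ <;> simp [Fm.code, Nat.pair_eq_pair] at h
    · subst h
      rfl
  | neg φ ih =>
    intro ψ h
    cases ψ <;> simp [Fm.code, Nat.pair_eq_pair] at h
    · rw [ih _ h]
  | and φ φ' ih ih' =>
    intro ψ h
    cases ψ <;> simp [Fm.code, Nat.pair_eq_pair] at h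
    · rw [ih _ h.1, ih' _ h.2]
  | ex i φ ih =>
    intro ψ h
    cases ψ <;> simp [Fm.code, Nat.pair_eq_pair] at h
    · obtain ⟨rfl, h⟩ := h
      rw [ih _ h]

end Pool.Agent.Y988.UF
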